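import Pool.Agent.Lib.MP_ccc55c_co.SixLem
import Pool.Agent.Lib.MP_ccc55c_co.Low
import Pool.Agent.Lib.MP_ccc55c_co.FarF

namespace Pool.Agent.Results.MP_ccc55c_co.Eventually

open Pool.Agent.Lib.MP_ccc55c_co

theorem result (n j : ℕ) (h3 : 3 ≤ j) (hn : 180 * j ^ 2 ≤ n) : j ∈ J n ↔ j ≤ 5 := by
  have h1 : 3 ^ 2 ≤ j ^ 2 := Nat.pow_le_pow_left h3 2
  have h2 : j ≤ j ^ 2 := Nat.le_self_pow (by omega) j
  constructor
  · intro h
    rw [mem_J_iff] at h
    obtain ⟨-, hj, G, hG, hP⟩ := h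
    by_contra hc
    have g3 := hG 3 le_rfl (by omega) (by omega)
    have gn := hG n (by omega) le_rfl (by omega)
    by_cases h6 : j = 6
    · subst h6
      exact hP (P6_of_P3_Pn g3 gn (by omega))
    · exact hP (quad_P g3 gn (by omega) hn)
  · intro h
    obtain rfl | rfl | rfl : j = 3 ∨ j = 4 ∨ j = 5 := by omega
    · exact three_mem (by omega)
    · exact four_mem (by omega)
    · rw [mem_J_iff]
      have h11 : 11 ≤ n := by omega
      exact ⟨by omega, by omega, G5 n, fun i h3 hi h5 => G5_hasP h11 i h3 hi h5, G5_not h11⟩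

end Pool.Agent.Results.MP_ccc55c_co.Eventually
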