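import Pool.Agent.Lib.MP_ccc55c_co.Small
import Pool.Agent.Lib.MP_ccc55c_co.Top

namespace Pool.Agent.Results.MP_ccc55c_co.Five

open Pool.Agent.Lib.MP_ccc55c_co

theorem result (n : ℕ) : 5 ∈ J n ↔ n = 5 ∨ 11 ≤ n := by
  constructor
  · intro h
    rw [mem_J_iff] at h
    obtain ⟨-, h5, G, hG, hP⟩ := h
    by_contra hc
    push Not at hc
    exact hP (P5_of_P3_Pn (hG 3 le_rfl (by omega) (by omega)) (hG n (by omega) le_rfl hc.1)
      (by omega) (by omega))
  · rintro (rfl | h)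
    · exact five_mem
    · rw [mem_J_iff]
      exact ⟨by omega, by omega, G5 n, fun i h3 hi h5 => G5_hasP h i h3 hi h5, G5_not h⟩

end Pool.Agent.Results.MP_ccc55c_co.Five
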