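import Pool.Agent.Lib.MP_ccc55c_co.SixLem
import Pool.Agent.Lib.MP_ccc55c_co.Top

namespace Pool.Agent.Results.MP_ccc55c_co.Six

open Pool.Agent.Lib.MP_ccc55c_co

theorem result (n : ℕ) : 6 ∈ J n ↔ n = 6 := by
  constructor
  · intro h
    rw [mem_J_iff] at h
    obtain ⟨-, h6, G, hG, hP⟩ := h
    by_contra hc
    exact hP (P6_of_P3_Pn (hG 3 le_rfl (by omega) (by omega)) (hG n (by omega) le_rfl hc)
      (by omega))
  · rintro rfl
    exact six_mem

end Pool.Agent.Results.MP_ccc55c_co.Six
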